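import Mathlib

/-! The places over `11` and over infinity of a multiquadratic field. -/

set_option autoImplicit false

open NumberField IsDedekindDomain MulAction
open scoped Pointwise

noncomputable section

namespace Pool.Agent.Lib.MP_02f36d_nt.QF

variable (K : Type) [Field K] [NumberField K] [IsGalois ℚ K]

theorem card_inf : ∃ D : Subgroup (K ≃ₐ[ℚ] K), Fintype.card (InfinitePlace K) = D.index ∧
    ∀ (χ : (K ≃ₐ[ℚ] K) →* ℤˣ) (c : ℤ) (s : K), c ≠ 0 → s ^ 2 = c →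
      (∀ σ : K ≃ₐ[ℚ] K, σ s = (χ σ : ℤ) * s) → ((∀ σ ∈ D, χ σ = 1) ↔ 0 < c) := by
  obtain ⟨φ⟩ : Nonempty (K →+* ℂ) := inferInstance
  refine ⟨stabilizer _ (InfinitePlace.mk φ), ?_, fun χ c s c0 hs hχ => ?_⟩
  · rw [index_stabilizer, Set.eq_univ_of_forall fun w => InfinitePlace.mem_orbit_iff.2
      (Subsingleton.elim _ _), Set.ncard_univ, Nat.card_eq_fintype_card]
  have s0 : s ≠ 0 := fun e => (Int.cast_ne_zero (α := K)).2 c0 (by rw [← hs, e]; simp)
  have e : φ s ^ 2 = c := by rw [← map_pow, hs, map_intCast]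
  have e1 := congrArg Complex.re e
  have e2 := congrArg Complex.im e
  simp only [sq, Complex.mul_re, Complex.mul_im, Complex.intCast_re, Complex.intCast_im] at e1 e2
  have k : ∀ σ, ComplexEmbedding.IsConj φ σ → (χ σ = 1 ↔ (φ s).im = 0) := fun σ h => by
    rw [← Complex.conj_eq_iff_im, ← Complex.star_def, ← h.eq, φ.injective.eq_iff, hχ,
      mul_eq_right₀ s0, Int.cast_eq_one, Units.val_eq_one]
  obtain ⟨τ, hτ⟩ := ComplexEmbedding.exists_comp_symm_eq_of_comp_eq (k := ℚ) φ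
    (ComplexEmbedding.conjugate φ) (Subsingleton.elim _ _)
  refine ⟨fun h => ?_, fun h σ hσ => ?_⟩
  · rw [(k τ.symm hτ.symm).1 (h _ ((InfinitePlace.mem_stabilizer_mk_iff _ _).2 (Or.inr hτ.symm))),
      mul_zero, sub_zero] at e1
    have : (0 : ℝ) ≤ c := e1 ▸ mul_self_nonneg _
    exact lt_of_le_of_ne (by exact_mod_cast this) c0.symm
  · rcases (InfinitePlace.mem_stabilizer_mk_iff _ _).1 hσ with rfl | hσ
    · exact map_one χ
    refine (k σ hσ).2 (by_contra fun n => ?_)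
    have h0 : (φ s).re = 0 :=
      (mul_eq_zero.1 (show (φ s).re * (φ s).im = 0 by linarith)).resolve_right n
    have : (0 : ℝ) < c := by exact_mod_cast h
    rw [h0] at e1
    nlinarith [mul_self_nonneg (φ s).im]

theorem dvd_of_sq {c n : ℤ} {r : ℚ} (hc : Squarefree c) (h : (11 : ℤ) ∣ c) (e : r ^ 2 * c = n) :
    (11 : ℤ) ∣ n := by
  have p : Prime (11 : ℤ) := by norm_num
  have e1 : r.num ^ 2 * c = n * r.den ^ 2 := by
    have : ((r.num ^ 2 * c : ℤ) : ℚ) = (n * r.den ^ 2 : ℤ) := by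
      push_cast
      rw [← e, ← Rat.mul_den_eq_num]
      ring
    exact_mod_cast this
  refine (p.dvd_or_dvd (e1 ▸ h.mul_left _)).resolve_right fun k => ?_
  have k1 := p.dvd_of_dvd_pow k
  have k2 : ¬ (11 : ℤ) ∣ r.num := fun k2 => absurd (Nat.eq_one_of_dvd_coprimes r.reduced
    (Int.natCast_dvd.1 k2) (Int.natCast_dvd_natCast.1 (show ((11 : ℕ) : ℤ) ∣ _ from k1)))
      (by norm_num)
  have k3 : (11 : ℤ) ^ 2 ∣ r.num ^ 2 * c := e1 ▸ (pow_dvd_pow_of_dvd k1 2).mul_left _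
  exact p.not_isUnit (hc 11 (by
    simpa [sq] using p.pow_dvd_of_dvd_mul_left 2 (mt p.dvd_of_dvd_pow k2) k3))

theorem eul : ∀ x : ZMod 11, (¬ ∃ y, x = y * y) → x ≠ 0 → x ^ 5 + 1 = 0 := by decide

theorem card_fin : ∃ D : Subgroup (K ≃ₐ[ℚ] K),
    {v : HeightOneSpectrum (𝓞 K) | (11 : 𝓞 K) ∈ v.asIdeal}.ncard = D.index ∧
    ∀ (χ : (K ≃ₐ[ℚ] K) →* ℤˣ) (c : ℤ) (s : K), Squarefree c → s ^ 2 = c →
      (∀ σ : K ≃ₐ[ℚ] K, σ s = (χ σ : ℤ) * s) → ((∀ σ ∈ D, χ σ = 1) ↔ jacobiSym c 11 = 1) := by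
  have : Fact (Nat.Prime 11) := ⟨by norm_num⟩
  let p : Ideal ℤ := Ideal.span {11}
  have pm : p.IsMaximal := Int.ideal_span_isMaximal_of_prime 11
  have p0 : p ≠ ⊥ := by simp [p]
  obtain ⟨⟨P, hP, hl⟩⟩ := Ideal.nonempty_primesOver (S := 𝓞 K) p
  have P0 := Ideal.ne_bot_of_liesOver_of_ne_bot p0 P
  have mem : ∀ n : ℤ, (n : 𝓞 K) ∈ P ↔ (11 : ℤ) ∣ n := fun n => by
    rw [← Ideal.mem_span_singleton, show Ideal.span {11} = p from rfl, hl.over]
    rfl
  refine ⟨stabilizer _ P, ?_, fun χ c s hc hs hχ => ?_⟩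
  · rw [index_stabilizer, Algebra.IsInvariant.orbit_eq_primesOver ℤ (𝓞 K) _ p P,
      ← Set.ncard_image_of_injective _ HeightOneSpectrum.asIdeal_injective]
    congr 1
    ext Q
    refine ⟨?_, fun h => ?_⟩
    · rintro ⟨v, hv, rfl⟩
      exact ⟨v.isPrime, ⟨pm.eq_of_le (Ideal.IsPrime.under ℤ v.asIdeal).ne_top
        ((Ideal.span_singleton_le_iff_mem _).2 (Ideal.mem_comap.2 (by rwa [map_ofNat])))⟩⟩
    · have := h.2
      refine ⟨⟨Q, h.1, Ideal.ne_bot_of_liesOver_of_ne_bot p0 Q⟩, ?_, rfl⟩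
      have k := Ideal.mem_comap.1
        (h.2.over ▸ Ideal.mem_span_singleton_self 11 : (11 : ℤ) ∈ Q.under ℤ)
      rwa [map_ofNat] at k
  have s0 : s ≠ 0 := fun e => (Int.cast_ne_zero (α := K)).2 hc.ne_zero (by rw [← hs, e]; simp)
  obtain ⟨t, rfl⟩ : ∃ t : 𝓞 K, (t : K) = s :=
    ⟨⟨s, IsIntegral.of_pow two_pos (hs ▸ isIntegral_algebraMap)⟩, rfl⟩
  have ht : t ^ 2 = c := RingOfIntegers.ext hs
  have hσ : ∀ σ : K ≃ₐ[ℚ] K, σ • t = (χ σ : ℤ) * t := fun σ => RingOfIntegers.ext (hχ σ)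
  have two : 2 * t ∈ P → (11 : ℤ) ∣ c := fun h => by
    have h1 : ((4 * c : ℤ) : 𝓞 K) ∈ P := by
      have := P.mul_mem_left (2 * t) h
      push_cast
      rw [← ht]
      convert this using 1
      ring
    have := (mem _).1 h1
    omega
  by_cases h11 : (11 : ℤ) ∣ c
  · refine iff_of_false (fun h => ?_) fun h => ?_
    swap
    · rw [jacobiSym.mod_left, show c % (11 : ℕ) = 0 from Int.emod_eq_zero_of_dvd h11,
        jacobiSym.zero_left (by norm_num)] at h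
      exact zero_ne_one h
    have key : ∀ y : 𝓞 K, (∀ σ : K ≃ₐ[ℚ] K, σ • y = (χ σ : ℤ) * y) → y ∈ P := fun y hy => by
      obtain ⟨r, hr⟩ := (IsGalois.mem_range_algebraMap_iff_fixed (F := ℚ) ((y : K) / t)).2
        fun σ => by
          have e : σ (y : K) = (χ σ : ℤ) * y := congrArg (fun z : 𝓞 K => (z : K)) (hy σ)
          rw [map_div₀, e, hχ, mul_div_mul_left _ _ (Int.cast_ne_zero.2 (χ σ).ne_zero)]
      obtain ⟨n, hn⟩ := Algebra.IsInvariant.isInvariant (A := ℤ) (G := K ≃ₐ[ℚ] K) (y ^ 2)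
        fun σ => by
          rw [smul_pow', hy, mul_pow, sq, ← Int.cast_mul, ← Units.val_mul, Int.units_mul_self]
          simp
      have e : r ^ 2 * c = n := (algebraMap ℚ K).injective (by
        have : (n : K) = (y : K) ^ 2 := congrArg (fun z : 𝓞 K => (z : K)) hn
        rw [map_mul, map_pow, hr, map_intCast, map_intCast, this, ← hs]
        field_simp)
      exact hP.mem_of_pow_mem 2 (hn ▸ (mem n).2 (dvd_of_sq hc h11 e))
    obtain ⟨τ, hτ⟩ : ∃ τ, χ τ = -1 := by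
      by_contra! k
      exact hP.ne_top ((Ideal.eq_top_iff_one _).2 (key 1 fun σ => by
        simp [(Int.units_eq_one_or (χ σ)).resolve_right (k σ)]))
    have : Algebra.IsInvariant (FixedPoints.subring (𝓞 K) χ.ker) (𝓞 K) χ.ker :=
      ⟨fun x hx => ⟨⟨x, hx⟩, rfl⟩⟩
    obtain ⟨g, hg⟩ := Algebra.IsInvariant.exists_smul_of_under_eq
      (FixedPoints.subring (𝓞 K) χ.ker) (𝓞 K) χ.ker P (τ⁻¹ • P) (Ideal.ext fun x => by
        have f : ∀ σ, χ σ = 1 → σ • (x : 𝓞 K) = x := fun σ h => x.2 ⟨σ, h⟩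
        have f' : ∀ σ, χ σ = -1 → σ • (x : 𝓞 K) = τ • (x : 𝓞 K) := fun σ h => by
          rw [← inv_smul_eq_iff, smul_smul, f _ (by simp [h, hτ])]
        have m := key (x - τ • x) fun σ => by
          rcases Int.units_eq_one_or (χ σ) with e | e
          · rw [smul_sub, smul_smul, f σ e, f' (σ * τ) (by simp [e, hτ]), e]
            simp
          · rw [smul_sub, smul_smul, f' σ e, f (σ * τ) (by simp [e, hτ]), e]
            simp
        change (x : 𝓞 K) ∈ P ↔ (x : 𝓞 K) ∈ τ⁻¹ • P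
        rw [Ideal.mem_inv_pointwise_smul_iff]
        exact ⟨fun a => by simpa using P.sub_mem a m, fun a => by simpa using P.add_mem m a⟩)
    have := h (τ * g) (by
      rw [mem_stabilizer_iff, mul_smul, ← eq_inv_smul_iff]
      exact hg.symm)
    rw [map_mul, hτ, show χ g = 1 from g.2] at this
    exact absurd this (by decide)
  have c0 : (c : ZMod 11) ≠ 0 := mt (ZMod.intCast_zmod_eq_zero_iff_dvd c 11).1 h11
  rw [← jacobiSym.legendreSym.to_jacobiSym, legendreSym.eq_one_iff _ c0]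
  refine ⟨fun h => by_contra fun n => h11 (two ?_), fun ⟨a, ha⟩ σ hσ' => by_contra fun n =>
    h11 (two ?_)⟩
  · have : Finite (𝓞 K ⧸ P) := Ideal.finiteQuotientOfFreeOfNeBot P P0
    obtain ⟨φ, hφ⟩ := IsArithFrobAt.exists_of_isInvariant ℤ (K ≃ₐ[ℚ] K) P
    have e : φ • t - t ^ Nat.card (ℤ ⧸ P.under ℤ) ∈ P := hφ t
    rw [← hl.over, show Nat.card (ℤ ⧸ p) = 11 from Int.card_ideal_quot 11, hσ,
      h φ hφ.mem_stabilizer] at e
    obtain ⟨k, hk⟩ : (11 : ℤ) ∣ c ^ 5 + 1 := by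
      refine (ZMod.intCast_zmod_eq_zero_iff_dvd _ 11).1 ?_
      push_cast
      exact eul _ n c0
    have hk' : (c : 𝓞 K) ^ 5 + 1 = 11 * k := by exact_mod_cast congrArg (Int.cast : ℤ → 𝓞 K) hk
    have := P.add_mem e (P.mul_mem_left (k * t) ((mem 11).2 dvd_rfl))
    rw [← ht] at hk'
    convert this using 1
    push_cast
    linear_combination t * hk'
  · obtain ⟨a, rfl⟩ := ZMod.intCast_surjective a
    obtain ⟨k, hk⟩ : (11 : ℤ) ∣ c - a * a :=
      (ZMod.intCast_zmod_eq_zero_iff_dvd _ 11).1 (by push_cast; rw [ha, sub_self])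
    have hk' : (c : 𝓞 K) - a * a = 11 * k := by exact_mod_cast congrArg (Int.cast : ℤ → 𝓞 K) hk
    have e : σ • t = -t := by simp [hσ, (Int.units_eq_one_or (χ σ)).resolve_left n]
    have k1 : ∀ b : ℤ, t - b ∈ P → 2 * t ∈ P := fun b hb => by
      have := Ideal.smul_mem_pointwise_smul σ _ _ hb
      rw [mem_stabilizer_iff.1 hσ', smul_sub, e,
        show σ • (b : 𝓞 K) = b from map_intCast (MulSemiringAction.toRingHom _ _ σ) b] at this
      convert P.sub_mem hb this using 1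
      ring
    have m : (t - a) * (t - (-a : ℤ)) ∈ P := by
      convert P.mul_mem_left k ((mem 11).2 dvd_rfl) using 1
      push_cast
      linear_combination ht + hk'
    exact (hP.mem_or_mem m).elim (k1 _) (k1 _)

end Pool.Agent.Lib.MP_02f36d_nt.QF
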