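import Pool.Agent.Lib.MP_02f36d_nt.QF.Gen
import Pool.Agent.Lib.MP_d6ddbd_nt.GQ.Blk
import Pool.Agent.Lib.MP_d6ddbd_nt.KA.Stmt

/-! The parity of the rank of `X₀(11)` over almost all multiquadratic fields. -/

set_option autoImplicit false

open Finset Module NumberField IsDedekindDomain WeierstrassCurve Filter Topology
open Pool.Agent.Lib.MP_d6ddbd_nt

namespace Pool.Agent.Lib.MP_02f36d_nt.QF

theorem good_all (hM : KA.MainStmt) {c : ℤ} (hc : Squarefree c) (e : ¬ KA.Blk c) (h : KI.Bd c) :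
    Good c :=
  good_gen hc.ne_zero h ((hM c hc e h).trans (GQ.wA_iff hc.ne_zero))

theorem final_all (hM : KA.MainStmt) : ∃ Z : Set ℤ,
    Tendsto (fun X : ℕ => ({d ∈ Z | |d| ≤ X}.ncard : ℝ) / X) atTop (𝓝 0) ∧
    ∀ (K : Type) [Field K] [NumberField K] [DecidableEq K] [IsGalois ℚ K],
      (∀ σ : K ≃ₐ[ℚ] K, σ ^ 2 = 1) →
      (∀ d : ℤ, Squarefree d → d ≠ 1 → IsSquare (d : K) → d ∉ Z) →
      Module.Finite ℤ (EK K).toAffine.Point ∧ finrank ℤ (EK K).toAffine.Point < finrank ℚ K ∧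
      (∀ v : HeightOneSpectrum (𝓞 K),
        ¬ ((EK K).minimal (v.valuation K).valuationSubring).HasAdditiveReduction
          (v.valuation K).valuationSubring) ∧
      Even (finrank ℤ (EK K).toAffine.Point + {v : HeightOneSpectrum (𝓞 K) |
        ((EK K).minimal (v.valuation K).valuationSubring).HasSplitMultiplicativeReduction
          (v.valuation K).valuationSubring}.ncard + Fintype.card (InfinitePlace K)) := by
  refine ⟨{d | Squarefree d ∧ ¬ Good d}, ?_, fun K _ _ _ _ hG hK => main K hG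
    fun c h1 h2 h3 => by_contra fun n => hK c h1 h2 h3 ⟨h1, n⟩⟩
  simpa only [Set.mem_ofPred_eq, and_comm (b := |_| ≤ _)] using
    GQ.den_all fun d a b c => good_all hM a b c

end Pool.Agent.Lib.MP_02f36d_nt.QF
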