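import Mathlib

/-! The rank of a module over a group of exponent two is the sum of the ranks of the eigenspaces. -/

set_option autoImplicit false

open Finset Module TensorProduct

namespace Pool.Agent.Lib.MP_02f36d_nt.QF

theorem enough : HasEnoughRootsOfUnity ℤ 2 where
  prim := ⟨-1, IsPrimitiveRoot.neg_one 0 (by norm_num)⟩
  cyc := inferInstance

theorem finrank_pi' {ι : Type} [Fintype ι] (B : ι → Type) [∀ i, AddCommGroup (B i)]
    [∀ i, Module.Finite ℤ (B i)] : finrank ℤ (∀ i, B i) = ∑ i, finrank ℤ (B i) := by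
  classical
  have k : ∀ (M : Type) [AddCommGroup M], finrank ℚ (ℚ ⊗[ℤ] M) = finrank ℤ M := fun M _ =>
    (TensorProduct.isBaseChange ℤ M ℚ).finrank_eq
  rw [← k, (TensorProduct.piRight ℤ ℚ ℚ B).finrank_eq, Module.finrank_pi_fintype]
  exact sum_congr rfl fun i _ => k _

theorem fin_tor {A : Type} [AddCommGroup A] (h2 : {P : A | 2 • P = 0}.Finite) (k : ℕ) :
    {P : A | 2 ^ k • P = 0}.Finite := by
  induction k with
  | zero => simp
  | succ k ih =>
    refine Set.Finite.of_finite_fibers (fun P : A => 2 • P)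
      (ih.subset ?_) fun Q hQ => ?_
    · rintro _ ⟨P, hP, rfl⟩
      rw [Set.mem_ofPred_eq, smul_smul, ← pow_succ]
      exact hP
    · obtain ⟨R, -, rfl⟩ := hQ
      refine (h2.image (· + R)).subset fun P hP => ⟨P - R, ?_, sub_add_cancel _ _⟩
      rw [Set.mem_ofPred_eq, smul_sub, sub_eq_zero]
      exact hP.2

/-- A homomorphism whose kernel and cokernel are killed by integers preserves the rank. -/
theorem rank_eq {M A : Type} [AddCommGroup M] [AddCommGroup A] [Module.Finite ℤ M]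
    (Φ : M →ₗ[ℤ] A) {a b : ℕ} (ha : a ≠ 0) (hb : b ≠ 0) (h1 : ∀ x, Φ x = 0 → a • x = 0)
    (h2 : ∀ P, ∃ x, Φ x = b • P) (h3 : {P : A | b • P = 0}.Finite) :
    Module.Finite ℤ A ∧ finrank ℤ A = finrank ℤ M := by
  have f : Module.Finite ℤ A := by
    let m : A →ₗ[ℤ] A := b • LinearMap.id
    refine ⟨Submodule.fg_of_fg_map_of_fg_inf_ker m ?_ ?_⟩
    · refine Submodule.FG.of_le (Submodule.fg_range Φ) ?_
      rintro _ ⟨P, -, rfl⟩
      exact h2 P
    · rw [top_inf_eq]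
      have : Finite (LinearMap.ker m) := h3
      exact Submodule.FG.of_finite
  refine ⟨f, ?_⟩
  have e1 := Submodule.finrank_quotient_add_finrank (LinearMap.range Φ)
  have e2 := Submodule.finrank_quotient_add_finrank (LinearMap.ker Φ)
  rw [Φ.quotKerEquivRange.finrank_eq] at e2
  have e3 : finrank ℤ (LinearMap.ker Φ) = 0 := Module.finrank_eq_zero_iff.2 fun x =>
    ⟨a, by exact_mod_cast ha, Subtype.ext ((natCast_zsmul _ _).trans (h1 x x.2))⟩
  have e4 : finrank ℤ (A ⧸ LinearMap.range Φ) = 0 := Module.finrank_eq_zero_iff.2 fun x => by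
    obtain ⟨P, rfl⟩ := Submodule.mkQ_surjective _ x
    refine ⟨b, by exact_mod_cast hb, ?_⟩
    rw [← map_smul, natCast_zsmul]
    exact (Submodule.Quotient.mk_eq_zero _).2 (h2 P)
  omega

variable {G : Type} [Group G] [Fintype G] (hG : ∀ g : G, g ^ 2 = 1)

/-- A group of exponent two is commutative. -/
abbrev cg : CommGroup G :=
  { (inferInstance : Group G) with
    mul_comm := fun a b => by
      have k : ∀ g : G, g⁻¹ = g := fun g => inv_eq_of_mul_eq_one_right (by rw [← sq, hG])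
      rw [← k (a * b), mul_inv_rev, k, k] }

include hG

theorem card_triv (H : Subgroup G) : {χ : G →* ℤˣ | ∀ σ ∈ H, χ σ = 1}.ncard = H.index := by
  let _ := cg hG
  have := enough.of_dvd ℤ (Monoid.exponent_dvd_of_forall_pow_eq_one hG)
  rw [Subgroup.index, ← CommGroup.card_domRestrictHom_ker ℤ H]
  refine Nat.card_congr (Equiv.subtypeEquivRight fun χ => ?_)
  rw [MonoidHom.mem_ker, MonoidHom.ext_iff]
  exact ⟨fun h x => h x x.2, fun h x hx => h ⟨x, hx⟩⟩

theorem rank_sum [Fintype (G →* ℤˣ)] {A : Type} [AddCommGroup A] (ρ : G → A →+ A)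
    (r1 : ∀ P, ρ 1 P = P) (rm : ∀ σ τ P, ρ (σ * τ) P = ρ σ (ρ τ P)) (B : (G →* ℤˣ) → Type)
    [∀ χ, AddCommGroup (B χ)] [∀ χ, Module.Finite ℤ (B χ)] (f : ∀ χ, B χ →+ A)
    (inj : ∀ χ, Function.Injective (f χ))
    (rg : ∀ χ P, (∃ Q, f χ Q = P) ↔ ∀ σ, ρ σ P = (χ σ : ℤ) • P) (h2 : {P : A | 2 • P = 0}.Finite) :
    Module.Finite ℤ A ∧ finrank ℤ A = ∑ χ, finrank ℤ (B χ) := by
  classical
  let _ := cg hG
  have := enough.of_dvd ℤ (Monoid.exponent_dvd_of_forall_pow_eq_one hG)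
  let Φ : (∀ χ, B χ) →ₗ[ℤ] A := ∑ χ, (f χ).toIntLinearMap ∘ₗ LinearMap.proj χ
  have hΦ : ∀ x, Φ x = ∑ χ, f χ (x χ) := fun x => by simp [Φ]
  have s1 : ∀ χ ψ : G →* ℤˣ, ∑ σ, (ψ σ : ℤ) * χ σ = if χ = ψ then (Fintype.card G : ℤ) else 0 :=
    fun χ ψ => by
      split_ifs with e
      · simp [e, ← Units.val_mul]
      · refine sum_hom_units_eq_zero ((Units.coeHom ℤ).comp (ψ * χ)) fun h => e ?_
        ext σ
        have h1 : (ψ σ : ℤ) * χ σ = 1 := DFunLike.congr_fun h σ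
        exact (Int.eq_of_mul_eq_one h1).symm
  have s2 : ∀ σ : G, ∑ χ : G →* ℤˣ, (χ σ : ℤ) =
      if σ = 1 then (Fintype.card (G →* ℤˣ) : ℤ) else 0 := fun σ => by
    split_ifs with e
    · simp [e]
    · refine sum_hom_units_eq_zero ((Units.coeHom ℤ).comp (MonoidHom.eval σ)) fun h => ?_
      obtain ⟨χ, hχ⟩ := CommGroup.exists_apply_ne_one_of_hasEnoughRootsOfUnity G ℤ e
      exact hχ (Units.ext (DFunLike.congr_fun h χ))
  obtain ⟨k, hk⟩ := (IsPGroup.iff_card (p := 2) (G := G →* ℤˣ)).1 fun χ =>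
    ⟨1, MonoidHom.ext fun σ => by simp [sq]⟩
  rw [← finrank_pi']
  refine rank_eq Φ (a := Fintype.card G) (b := 2 ^ k) Fintype.card_ne_zero (by positivity)
    (fun x hx => funext fun ψ => inj ψ ?_) (fun P => ?_) (fin_tor h2 k)
  · have h1 : ∑ σ, (ψ σ : ℤ) • ρ σ (Φ x) = 0 := by simp [hx]
    simp only [hΦ, map_sum, fun χ σ => (rg χ _).1 ⟨x χ, rfl⟩ σ, smul_sum, smul_smul] at h1
    rw [sum_comm] at h1
    simpa [← sum_smul, s1] using h1
  · choose x hx using fun χ : G →* ℤˣ => (rg χ (∑ σ, (χ σ : ℤ) • ρ σ P)).2 fun τ => by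
      rw [map_sum, smul_sum]
      refine Fintype.sum_equiv (Equiv.mulLeft τ) _ _ fun σ => ?_
      rw [map_zsmul, Equiv.coe_mulLeft, rm, smul_smul, map_mul, Units.val_mul, ← mul_assoc,
        ← Units.val_mul, Int.units_mul_self, Units.val_one, one_mul]
    refine ⟨x, ?_⟩
    simp only [hΦ, hx]
    rw [sum_comm, ← hk, Nat.card_eq_fintype_card]
    simp [← sum_smul, s2, r1]

end Pool.Agent.Lib.MP_02f36d_nt.QF
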