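import Pool.Agent.Lib.MP_02f36d_nt.QF.Main
import Pool.Agent.Lib.MP_d6ddbd_nt.GQ.Fin

/-! The parity of the rank of `X₀(11)` over multiquadratic fields, for a general class of twists. -/

set_option autoImplicit false

open Finset Module NumberField IsDedekindDomain WeierstrassCurve Filter Topology
open Pool.Agent.Lib.MP_02f36d_nt.X11 (Wd)
open Pool.Agent.Lib.MP_d6ddbd_nt

namespace Pool.Agent.Lib.MP_02f36d_nt.QF

theorem good_gen {c : ℤ} (hc : c ≠ 0) (h : KI.Bd c)
    (m : (K11.Tw c).Infinite ↔ ¬ (jacobiSym c 11 = 1 ↔ 0 < c)) : Good c := by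
  by_cases hI : (K11.Tw c).Infinite
  · obtain ⟨a, b⟩ := X11.rankB hc h hI
    exact ⟨a, b.le, iff_of_false (by omega) (m.1 hI)⟩
  · have := (X11.fin_iff hc).2 (Set.not_infinite.1 hI)
    have a : finrank ℤ (Wd c).toAffine.Point = 0 :=
      Module.finrank_eq_zero_iff_isTorsion.2 (isAddTorsion_iff_isTorsion_int.1
        isAddTorsion_of_finite)
    exact ⟨inferInstance, a.trans_le zero_le_one, iff_of_true a (not_not.1 (mt m.2 hI))⟩

theorem final_gen (P : ℤ → Prop) (hM : ∀ c : ℤ, Squarefree c → P c → KI.Bd c →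
    ((K11.Tw c).Infinite ↔ ¬ (jacobiSym c 11 = 1 ↔ 0 < c))) : ∃ Z : Set ℤ,
    Tendsto (fun X : ℕ => ({d ∈ Z | |d| ≤ X}.ncard : ℝ) / X) atTop (𝓝 0) ∧
    ∀ (K : Type) [Field K] [NumberField K] [DecidableEq K] [IsGalois ℚ K],
      (∀ σ : K ≃ₐ[ℚ] K, σ ^ 2 = 1) →
      (∀ d : ℤ, Squarefree d → d ≠ 1 → IsSquare (d : K) → P d ∧ d ∉ Z) →
      Module.Finite ℤ (EK K).toAffine.Point ∧ finrank ℤ (EK K).toAffine.Point < finrank ℚ K ∧
      (∀ v : HeightOneSpectrum (𝓞 K),
        ¬ ((EK K).minimal (v.valuation K).valuationSubring).HasAdditiveReduction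
          (v.valuation K).valuationSubring) ∧
      Even (finrank ℤ (EK K).toAffine.Point + {v : HeightOneSpectrum (𝓞 K) |
        ((EK K).minimal (v.valuation K).valuationSubring).HasSplitMultiplicativeReduction
          (v.valuation K).valuationSubring}.ncard + Fintype.card (InfinitePlace K)) := by
  refine ⟨{d | Squarefree d ∧ ¬ KI.Bd d}, ?_, fun K _ _ _ _ hG hK => main K hG
    fun c h1 h2 h3 => ?_⟩
  · simpa only [Set.mem_ofPred_eq, and_comm (b := |_| ≤ _)] using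
      GQ.den_of GQ.oneAll fun _ _ b => b
  · obtain ⟨a, e⟩ := hK c h1 h2 h3
    have b : KI.Bd c := by_contra fun n => e ⟨h1, n⟩
    exact good_gen h1.ne_zero b (hM c h1 a b)

end Pool.Agent.Lib.MP_02f36d_nt.QF
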