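import Pool.Agent.Lib.MP_02f36d_nt.QF.Char
import Pool.Agent.Lib.MP_02f36d_nt.X11.Root
import Pool.Agent.Lib.MP_02f36d_nt.Maps

/-! The points of `X₀(11)` over a multiquadratic field and the points of its twists. -/

set_option autoImplicit false

open Finset Module WeierstrassCurve WeierstrassCurve.Affine
open Pool.Agent.Lib.MP_02f36d_nt.X11 (Wd)

noncomputable section

namespace Pool.Agent.Lib.MP_02f36d_nt.QF

/-- The curve `X₀(11)`. -/
def EK (K : Type) [CommRing K] : WeierstrassCurve K := ⟨0, -1, 1, -10, -20⟩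

variable {K : Type} [Field K] [NumberField K]

/-- A square root of a squarefree integer that transforms by the character `χ`. -/
theorem kummer [IsGalois ℚ K] (χ : (K ≃ₐ[ℚ] K) →* ℤˣ) :
    ∃ (c : ℤ) (s : K), Squarefree c ∧ s ^ 2 = c ∧ ∀ σ : K ≃ₐ[ℚ] K, σ s = (χ σ : ℤ) * s := by
  obtain ⟨z, hz⟩ : ∃ z : K, ∑ σ : K ≃ₐ[ℚ] K, ((χ σ : ℤ) : K) * σ z ≠ 0 := by
    by_contra! h
    have h1 := (linearIndependent_monoidHom K K).comp
      (fun σ : K ≃ₐ[ℚ] K => (σ : K →* K)) fun σ τ e => AlgEquiv.ext fun x => DFunLike.congr_fun e x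
    have h2 := Fintype.linearIndependent_iff.1 h1 (fun σ => ((χ σ : ℤ) : K))
      (funext fun x => by simpa using h x) 1
    simp at h2
  generalize ht : ∑ σ : K ≃ₐ[ℚ] K, ((χ σ : ℤ) : K) * σ z = t at hz
  have q : ∀ σ, ((χ σ : ℤ) : K) * (χ σ : ℤ) = 1 := fun σ => by
    rw [← Int.cast_mul, ← Units.val_mul, Int.units_mul_self, Units.val_one, Int.cast_one]
  have h1 : ∀ τ : K ≃ₐ[ℚ] K, τ t = (χ τ : ℤ) * t := fun τ => by
    rw [← ht, map_sum, mul_sum]
    refine Fintype.sum_equiv (Equiv.mulLeft τ) _ _ fun σ => ?_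
    rw [Equiv.coe_mulLeft, map_mul τ, map_intCast, map_mul, Units.val_mul, Int.cast_mul,
      ← mul_assoc, ← mul_assoc, q, one_mul, AlgEquiv.mul_apply]
  obtain ⟨r, hr⟩ := (IsGalois.mem_range_algebraMap_iff_fixed (F := ℚ) (t ^ 2)).2 fun τ => by
    rw [map_pow, h1, mul_pow, sq, q, one_mul]
  have r0 : r ≠ 0 := by
    rintro rfl
    exact pow_ne_zero 2 hz (hr.symm.trans (map_zero _))
  obtain ⟨b, c, h2, h3⟩ : ∃ b c : ℤ, b ^ 2 * c = r.num * r.den ∧ Squarefree c := by
    obtain ⟨a, b, e, h⟩ := Nat.sq_mul_squarefree (r.num * r.den).natAbs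
    rcases Int.natAbs_eq (r.num * r.den) with k | k
    · exact ⟨b, a, by rw [k, ← e]; simp, Int.squarefree_natCast.2 h⟩
    · exact ⟨b, -a, by rw [k, ← e]; simp, Int.squarefree_natAbs.1 (by simpa using h)⟩
  have b0 : (b : K) ≠ 0 := by
    rw [Int.cast_ne_zero]
    rintro rfl
    exact mul_ne_zero (Rat.num_ne_zero.2 r0) (Int.natCast_ne_zero.2 r.den_ne_zero)
      (by simpa using h2.symm)
  refine ⟨c, t * r.den / b, h3, ?_, fun σ => by
    rw [map_div₀, map_mul, h1, map_natCast, map_intCast]; ring⟩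
  have h4 : (b : K) ^ 2 * c = r.num * r.den := by exact_mod_cast congrArg (Int.cast : ℤ → K) h2
  have h5 : (r : K) * r.den = r.num := by exact_mod_cast Rat.mul_den_eq_num r
  have h6 : t ^ 2 = r := hr.symm
  field_simp
  rw [h4, h6, ← h5]
  ring

variable [DecidableEq K]

theorem vc_add {U U' : Affine K} {C : VariableChange K} (h : C • U = U') (hc : U'.c₄ ≠ 0)
    (P Q : U'.Point) : vcFun h (P + Q) = vcFun h P + vcFun h Q := by
  classical
  let j := algebraMap K (AlgebraicClosure K)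
  have h' : C.map j • U.map j = U'.map j := by rw [← h]; exact map_variableChange ..
  have : Infinite (U'.map j).Point := infinite_pt (sep_of_c4 (Or.inl (by
    rw [map_c₄]
    exact (map_ne_zero j).2 hc)))
  have k : ∀ P, ptMap j rfl (vcFun h P) = vcMap h' (ptMap j rfl P) := fun P => by
    by_cases hP : P = 0
    · rw [hP, map_zero, map_zero]
      exact map_zero _
    obtain ⟨p0, p1, p2⟩ := vcFun_spec h hP
    obtain ⟨q0, q1, q2⟩ := vcMap_spec h' (ptMap_ne (j := j) rfl hP)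
    refine pt_ext (ptMap_ne rfl p0) q0 ?_ ?_
    · rw [xc_ptMap, p1, q1, xc_ptMap]
      simp
    · rw [yc_ptMap, p2, q2, xc_ptMap, yc_ptMap]
      simp
  refine ptMap_injective (j := j) rfl ?_
  rw [map_add, k, k, k, map_add, map_add]

omit [NumberField K] [DecidableEq K] in
theorem ek_map (σ : K →+* K) : (EK K).toAffine.map σ = (EK K).toAffine := by
  ext <;> simp [EK, map_ofNat]

omit [NumberField K] [DecidableEq K] in
theorem ek_neg {P : (EK K).toAffine.Point} (h : P ≠ 0) : yc (-P) = -yc P - 1 :=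
  (yc_neg h).trans (by rw [show (EK K).toAffine.a₁ = 0 from rfl, zero_mul, sub_zero]; rfl)

omit [NumberField K] [DecidableEq K] in
theorem ek_eq {P : (EK K).toAffine.Point} (h : P ≠ 0) :
    yc P ^ 2 + yc P = xc P ^ 3 - xc P ^ 2 - 10 * xc P - 20 := by
  have e := (equation_iff _ _).1 (nonsing h).1
  generalize xc P = x, yc P = y at e ⊢
  simp only [EK] at e
  linear_combination e

/-- The Galois action on the points. -/
def rho (σ : K ≃ₐ[ℚ] K) : (EK K).toAffine.Point →+ (EK K).toAffine.Point :=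
  ptMap (σ : K →+* K) (ek_map _)

theorem rho_one (P : (EK K).toAffine.Point) : rho 1 P = P := by cases P <;> rfl

theorem rho_mul (σ τ : K ≃ₐ[ℚ] K) (P : (EK K).toAffine.Point) :
    rho (σ * τ) P = rho σ (rho τ P) := by cases P <;> rfl

theorem fin_two : {P : (EK K).toAffine.Point | 2 • P = 0}.Finite := by
  let f : Polynomial K := 4 * .X ^ 3 - 4 * .X ^ 2 - 40 * .X - 79
  have f0 : f ≠ 0 := fun h => by
    have := congrArg (Polynomial.eval 0) h
    simp [f] at this
  refine Set.Finite.subset (Set.Finite.insert 0 (Set.Finite.of_finite_image (f := xc)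
    (s := {P | P ≠ 0 ∧ P = -P}) ((Polynomial.finite_setOfPred_isRoot f0).subset ?_) ?_))
    fun P hP => ?_
  · rintro _ ⟨P, ⟨h0, h⟩, rfl⟩
    have e := ek_eq h0
    have y := (congrArg yc h).trans (ek_neg h0)
    simp only [Set.mem_ofPred_eq, f, Polynomial.IsRoot, Polynomial.eval_sub, Polynomial.eval_mul,
      Polynomial.eval_pow, Polynomial.eval_X, Polynomial.eval_ofNat]
    linear_combination (2 * yc P + 1) * y - 4 * e
  · rintro P ⟨h0, h⟩ Q ⟨k0, k⟩ e
    obtain ⟨x, y, h1, rfl⟩ := exists_some h0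
    obtain ⟨x', y', h2, rfl⟩ := exists_some k0
    exact ((Point.X_eq_iff (h₁ := h1) (h₂ := h2)).1 e).elim id fun e' => e'.trans k.symm
  · refine or_iff_not_imp_left.2 fun h0 => ⟨h0, eq_neg_of_add_eq_zero_left ?_⟩
    rw [← two_nsmul]
    exact hP

/-- The points of the twist are the points in the eigenspace. -/
theorem twist [IsGalois ℚ K] (χ : (K ≃ₐ[ℚ] K) →* ℤˣ) {c : ℤ} {s : K} (c0 : c ≠ 0) (hs : s ^ 2 = c)
    (hχ : ∀ σ : K ≃ₐ[ℚ] K, σ s = (χ σ : ℤ) * s) :
    ∃ f : (Wd c).toAffine.Point →+ (EK K).toAffine.Point, Function.Injective f ∧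
      ∀ P, (∃ Q, f Q = P) ↔ ∀ σ, rho σ P = (χ σ : ℤ) • P := by
  have s0 : s ≠ 0 := fun e => (Int.cast_ne_zero (α := K)).2 c0 (by rw [← hs, e]; simp)
  let U : Affine K := (Wd c).toAffine.map (algebraMap ℚ K)
  let C : VariableChange K := ⟨Units.mk0 (2 * s)⁻¹ (by simpa using s0), 0, 0, -1 / 2⟩
  have hC : C • (EK K).toAffine = U := by
    ext <;> simp [U, C, Wd, EK, variableChange_def, ← hs] <;> first | ring1 | norm_num
  have hc : U.c₄ ≠ 0 := by
    rw [← hC, variableChange_c₄]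
    refine mul_ne_zero (pow_ne_zero _ (Units.ne_zero _)) ?_
    simp only [EK, c₄, b₂, b₄]
    norm_num
  let f : (Wd c).toAffine.Point →+ (EK K).toAffine.Point :=
    (AddMonoidHom.mk' (vcFun hC) (vc_add hC hc)).comp (ptMap (algebraMap ℚ K) rfl)
  have sp : ∀ {Q}, Q ≠ 0 → f Q ≠ 0 ∧ xc (f Q) = (2 * s)⁻¹ ^ 2 * (xc Q : ℚ) ∧
      yc (f Q) = (2 * s)⁻¹ ^ 3 * (yc Q : ℚ) - 1 / 2 := fun hQ => by
    obtain ⟨a, b, c⟩ := vcFun_spec hC (ptMap_ne (j := algebraMap ℚ K) rfl hQ)
    rw [yc_ptMap] at c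
    rw [xc_ptMap] at b
    refine ⟨a, b.trans ?_, c.trans ?_⟩ <;> simp [C]
    ring
  have key : ∀ (σ : K ≃ₐ[ℚ] K) {P : (EK K).toAffine.Point}, P ≠ 0 →
      (rho σ P = (χ σ : ℤ) • P ↔ σ (xc P) = xc P ∧ σ (yc P) + 1 / 2 = (χ σ : ℤ) * (yc P + 1 / 2)) :=
    fun σ P h0 => by
      have a : xc (rho σ P) = σ (xc P) := xc_ptMap _ _
      have b : yc (rho σ P) = σ (yc P) := yc_ptMap _ _
      have n : rho σ P ≠ 0 := ptMap_ne _ h0
      rw [← a, ← b]
      rcases Int.units_eq_one_or (χ σ) with e | e <;> rw [e]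
      · rw [Units.val_one, one_smul, Int.cast_one, one_mul, add_left_inj]
        exact ⟨fun e => by rw [e]; exact ⟨rfl, rfl⟩, fun e => pt_ext n h0 e.1 e.2⟩
      · have y := ek_neg h0
        rw [Units.val_neg, Units.val_one, neg_smul, one_smul, Int.cast_neg, Int.cast_one]
        refine ⟨fun e => ?_, fun e => pt_ext n (neg_ne_zero.2 h0) (e.1.trans (xc_neg P).symm) ?_⟩
        · rw [e]
          exact ⟨xc_neg P, by linear_combination y⟩
        · linear_combination e.2 - y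
  have q : ∀ σ, ((χ σ : ℤ) : K) ^ 2 = 1 := fun σ => by
    rw [sq, ← Int.cast_mul, ← Units.val_mul, Int.units_mul_self, Units.val_one, Int.cast_one]
  refine ⟨f, (injective_iff_map_eq_zero _).2 fun Q h => by_contra fun k => (sp k).1 h,
    fun P => ⟨?_, fun h => ?_⟩⟩
  · rintro ⟨Q, rfl⟩ σ
    by_cases h0 : Q = 0
    · simp [h0]
    obtain ⟨a, b, e⟩ := sp h0
    have n : ((χ σ : ℤ) : K) ≠ 0 := fun e => by simpa [e] using q σ
    rw [key σ a, b, e]
    simp only [map_mul, map_pow, map_inv₀, map_sub, map_div₀, map_one, map_ofNat, map_ratCast, hχ]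
    constructor <;> field_simp
    · rw [q, one_mul]
    · linear_combination (-(yc Q : ℚ) * (((χ σ : ℤ) : K) ^ 2 + 1)) * q σ
  · by_cases h0 : P = 0
    · exact ⟨0, by rw [h0, map_zero]⟩
    obtain ⟨x, hx⟩ := (IsGalois.mem_range_algebraMap_iff_fixed (F := ℚ)
      ((2 * s) ^ 2 * xc P)).2 fun σ => by
        rw [map_mul, map_pow, map_mul, map_ofNat, hχ, ((key σ h0).1 (h σ)).1]
        linear_combination 4 * s ^ 2 * xc P * q σ
    obtain ⟨y, hy⟩ := (IsGalois.mem_range_algebraMap_iff_fixed (F := ℚ)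
      ((2 * s) ^ 3 * (yc P + 1 / 2))).2 fun σ => by
        rw [map_mul, map_pow, map_mul, map_ofNat, hχ, map_add, map_div₀, map_one, map_ofNat,
          ((key σ h0).1 (h σ)).2]
        linear_combination 8 * s ^ 3 * (yc P + 1 / 2) * (((χ σ : ℤ) : K) ^ 2 + 1) * q σ
    have hC' : C⁻¹ • U = (EK K).toAffine := by rw [← hC, inv_smul_smul]
    obtain ⟨a, b, e⟩ := vcFun_spec hC' h0
    obtain ⟨Q, hQ⟩ := mem_range_ptMap (j := algebraMap ℚ K) (V := (Wd c).toAffine) rfl
      (Q := vcFun hC' P) (x := x) (y := y)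
      (by rw [b, hx]; simp [C, VariableChange.inv_def])
      (by rw [e, hy]; simp [C, VariableChange.inv_def]; ring)
    have Q0 : Q ≠ 0 := by
      rintro rfl
      exact a (hQ.symm.trans (map_zero _))
    obtain ⟨a', b', e'⟩ := sp Q0
    have x' : ((xc Q : ℚ) : K) = _ := (xc_ptMap rfl Q).symm.trans ((congrArg xc hQ).trans b)
    have y' : ((yc Q : ℚ) : K) = _ := (yc_ptMap rfl Q).symm.trans ((congrArg yc hQ).trans e)
    refine ⟨Q, pt_ext a' h0 ?_ ?_⟩
    · rw [b', x']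
      simp [C, VariableChange.inv_def]
      field_simp
    · rw [e', y']
      simp [C, VariableChange.inv_def]
      field_simp
      ring

end Pool.Agent.Lib.MP_02f36d_nt.QF
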