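import Pool.Agent.Lib.MP_02f36d_nt.QF.Cnt
import Pool.Agent.Lib.MP_02f36d_nt.QF.Red
import Pool.Agent.Lib.MP_02f36d_nt.X11.Den
import Pool.Agent.Lib.MP_d6ddbd_nt.K11.Comp1
import Pool.Agent.Lib.MP_d6ddbd_nt.GO.Fin

/-! The parity of the rank of `X₀(11)` over multiquadratic fields. -/

set_option autoImplicit false

open Finset Module NumberField IsDedekindDomain WeierstrassCurve Filter Topology
open Pool.Agent.Lib.MP_02f36d_nt.X11 (Wd)
open Pool.Agent.Lib.MP_d6ddbd_nt

noncomputable section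

namespace Pool.Agent.Lib.MP_02f36d_nt.QF

/-- The twist by `c` has rank at most one, of the expected parity. -/
def Good (c : ℤ) : Prop := Module.Finite ℤ (Wd c).toAffine.Point ∧
  finrank ℤ (Wd c).toAffine.Point ≤ 1 ∧
  (finrank ℤ (Wd c).toAffine.Point = 0 ↔ (jacobiSym c 11 = 1 ↔ 0 < c))

theorem good_one : Good 1 := by
  obtain ⟨L, _, _, θ, hθ⟩ := K11.Final.exists_cub
  obtain ⟨ϑ, C⟩ := K11.Comp.ctx K11.pr_thm hθ
  have := (X11.fin_iff one_ne_zero).2 (K11.no_thm K11.pr_thm L θ hθ 1 one_ne_zero fun α h => by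
    have w := ((K11.lAll L θ hθ 1 ⟨squarefree_one, rfl, by norm_num⟩).1 α).1 h |>.1
    refine C.triv w.ne w.sq w.two fun 𝔭 => ?_
    obtain ⟨-, l, hl, m, -⟩ := C.pr 𝔭
    exact w.ev l hl (fun e => hl.not_dvd_one (by exact_mod_cast e)) (notMem_empty l) 𝔭 m)
  have a : finrank ℤ (Wd 1).toAffine.Point = 0 :=
    Module.finrank_eq_zero_iff_isTorsion.2 (isAddTorsion_iff_isTorsion_int.1
      isAddTorsion_of_finite)
  exact ⟨inferInstance, a.trans_le zero_le_one, iff_of_true a (by simp)⟩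

theorem jac {c : ℤ} (h4 : c % 4 = 1) : jacobiSym (-11) c.natAbs = c.sign * jacobiSym c 11 := by
  have ho : Odd c.natAbs := Int.natAbs_odd.2 (Int.odd_iff.2 (by omega))
  have e : jacobiSym c 11 = jacobiSym c.sign 11 * jacobiSym c.natAbs 11 := by
    rw [← jacobiSym.mul_left, Int.sign_mul_natAbs]
  rw [jacobiSym.neg _ ho, e]
  rcases lt_or_gt_of_ne (show c ≠ 0 by omega) with h | h
  · have m : c.natAbs % 4 = 3 := by omega
    have := jacobiSym.quadratic_reciprocity_three_mod_four (a := 11) (b := c.natAbs) rfl m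
    rw [ZMod.χ₄_nat_three_mod_four m, Int.sign_eq_neg_one_of_neg h,
      show jacobiSym (-1) 11 = -1 by norm_num, show jacobiSym 11 c.natAbs = _ from this]
    ring
  · have m : c.natAbs % 4 = 1 := by omega
    have := jacobiSym.quadratic_reciprocity_one_mod_four' (a := 11) (b := c.natAbs) (by decide) m
    rw [ZMod.χ₄_nat_one_mod_four m, Int.sign_eq_one_of_pos h, jacobiSym.one_left,
      show jacobiSym 11 c.natAbs = _ from this]
    ring

theorem good_of {c : ℤ} (hc : K11.Fam c) (h : KI.Bd c) : Good c := by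
  obtain ⟨a, b, e⟩ := X11.fullB KI.mainAll hc h
  refine ⟨a, b, ?_⟩
  rw [jac hc.m4] at e
  have j := jacobiSym.eq_one_or_neg_one (a := c) (b := 11) (by
    rw [Int.gcd_comm]
    exact (Nat.Prime.coprime_iff_not_dvd (p := 11) (by norm_num)).2
      fun e => hc.n11 (Int.natCast_dvd.2 e))
  rcases lt_or_gt_of_ne hc.sf.ne_zero with s | s
  · rw [Int.sign_eq_neg_one_of_neg s] at e
    rcases Nat.le_one_iff_eq_zero_or_eq_one.1 b with r | r <;> rcases j with j | j <;>
      simp [r, j, s.not_gt] at e ⊢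
  · rw [Int.sign_eq_one_of_pos s] at e
    rcases Nat.le_one_iff_eq_zero_or_eq_one.1 b with r | r <;> rcases j with j | j <;>
      simp [r, j, s] at e ⊢

theorem main (K : Type) [Field K] [NumberField K] [DecidableEq K] [IsGalois ℚ K]
    (hG : ∀ σ : K ≃ₐ[ℚ] K, σ ^ 2 = 1)
    (h : ∀ c : ℤ, Squarefree c → c ≠ 1 → IsSquare (c : K) → Good c) :
    Module.Finite ℤ (EK K).toAffine.Point ∧ finrank ℤ (EK K).toAffine.Point < finrank ℚ K ∧
      (∀ v : HeightOneSpectrum (𝓞 K),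
        ¬ ((EK K).minimal (v.valuation K).valuationSubring).HasAdditiveReduction
          (v.valuation K).valuationSubring) ∧
      Even (finrank ℤ (EK K).toAffine.Point + {v : HeightOneSpectrum (𝓞 K) |
        ((EK K).minimal (v.valuation K).valuationSubring).HasSplitMultiplicativeReduction
          (v.valuation K).valuationSubring}.ncard + Fintype.card (InfinitePlace K)) := by
  classical
  have : Finite ((K ≃ₐ[ℚ] K) →* ℤˣ) := Finite.of_injective _ DFunLike.coe_injective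
  have := Fintype.ofFinite ((K ≃ₐ[ℚ] K) →* ℤˣ)
  choose c s c1 c2 c3 using kummer (K := K)
  have g : ∀ χ, Good (c χ) := fun χ => by
    by_cases e : c χ = 1
    · exact e ▸ good_one
    · exact h _ (c1 χ) e ⟨s χ, by rw [← c2, sq]⟩
  choose f f1 f2 using fun χ => twist χ (c1 χ).ne_zero (c2 χ) (c3 χ)
  have := fun χ => (g χ).1
  obtain ⟨a, b⟩ := rank_sum hG rho rho_one rho_mul _ f f1 f2 fin_two
  obtain ⟨D, d1, d2⟩ := card_fin K
  obtain ⟨D', d3, d4⟩ := card_inf K
  have r : ∀ χ, finrank ℤ (Wd (c χ)).toAffine.Point = 0 ↔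
      ((∀ σ ∈ D, χ σ = 1) ↔ ∀ σ ∈ D', χ σ = 1) := fun χ => by
    rw [d2 χ _ _ (c1 χ) (c2 χ) (c3 χ), d4 χ _ _ (c1 χ).ne_zero (c2 χ) (c3 χ), (g χ).2.2]
  have k : ∀ H : Subgroup (K ≃ₐ[ℚ] K),
      H.index = ∑ χ : (K ≃ₐ[ℚ] K) →* ℤˣ, if ∀ σ ∈ H, χ σ = 1 then 1 else 0 := fun H => by
    rw [← card_triv hG, ← card_filter, ← Set.ncard_coe_finset]
    simp
  refine ⟨a, ?_, fun v => not_add _ K, ?_⟩
  · rw [b, ← IsGalois.card_aut_eq_finrank, ← Subgroup.index_bot, k]
    refine sum_lt_sum (fun χ _ => by simpa using (g χ).2.1) ⟨1, mem_univ _, ?_⟩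
    rw [(r 1).2 (by simp)]
    simp
  · simp only [split_iff, lt_iff]
    rw [b, d1, d3, k, k, ← sum_add_distrib, ← sum_add_distrib]
    refine even_sum _ fun χ _ => ?_
    have h1 := r χ
    have h2 := (g χ).2.1
    rw [Nat.even_iff]
    split_ifs with e1 e2 e2
    · have := h1.2 (iff_of_true e1 e2)
      omega
    · have := mt h1.1 fun e => e2 (e.1 e1)
      omega
    · have := mt h1.1 fun e => e1 (e.2 e2)
      omega
    · have := h1.2 (iff_of_false e1 e2)
      omega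

/-- The final statement from the density theorem. -/
theorem final (h : GO.OneStmt) : ∃ Z : Set ℤ,
    Tendsto (fun X : ℕ => ({d ∈ Z | |d| ≤ X}.ncard : ℝ) / X) atTop (𝓝 0) ∧
    ∀ (K : Type) [Field K] [NumberField K] [DecidableEq K] [IsGalois ℚ K],
      (∀ σ : K ≃ₐ[ℚ] K, σ ^ 2 = 1) →
      (∀ d : ℤ, Squarefree d → d ≠ 1 → IsSquare (d : K) → d % 4 = 1 ∧ ¬ 11 ∣ d ∧ d ∉ Z) →
      Module.Finite ℤ (EK K).toAffine.Point ∧ finrank ℤ (EK K).toAffine.Point < finrank ℚ K ∧
      (∀ v : HeightOneSpectrum (𝓞 K),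
        ¬ ((EK K).minimal (v.valuation K).valuationSubring).HasAdditiveReduction
          (v.valuation K).valuationSubring) ∧
      Even (finrank ℤ (EK K).toAffine.Point + {v : HeightOneSpectrum (𝓞 K) |
        ((EK K).minimal (v.valuation K).valuationSubring).HasSplitMultiplicativeReduction
          (v.valuation K).valuationSubring}.ncard + Fintype.card (InfinitePlace K)) := by
  refine ⟨{d | Squarefree d ∧ d % 4 = 1 ∧ ¬ (11 : ℤ) ∣ d ∧ ¬ KI.Bd d}, ?_,
    fun K _ _ _ _ hG hK => main K hG fun c h1 h2 h3 => ?_⟩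
  · simpa only [Set.mem_ofPred_eq, and_comm (b := |_| ≤ _)] using GO.den_of h fun _ _ b => b
  · obtain ⟨a, b, e⟩ := hK c h1 h2 h3
    exact good_of ⟨h1, a, b⟩ (by_contra fun n => e ⟨h1, a, b, n⟩)

end Pool.Agent.Lib.MP_02f36d_nt.QF
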